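import Pool.Agent.Helper35.PI.St1

/-!
# Module E1 of project PI
-/

set_option autoImplicit false

namespace Helper79.PI

open Helper35.PI
open scoped BigOperators

variable {n N : ℕ}

lemma e1_dl_symm (i j : Fin n) : dl i j = dl j i := by
  unfold dl
  by_cases h : i = j
  · rw [if_pos h, if_pos h.symm]
  · rw [if_neg h, if_neg (fun h' => h h'.symm)]

lemma e1_zz_symm {A : Fin n → Fin n → EE N} (hA : SymV A) (i j : Fin n) : zz A i j = zz A j i := by
  unfold zz
  rw [hA i j]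

lemma e1_sum_zz (A : Fin n → Fin n → EE N) : ∑ i, zz A i i = YY A := by
  unfold zz YY
  rw [← sum_inner]
  exact real_inner_self_eq_norm_sq (Hv A)

lemma e1_sum_dl (hn : 1 ≤ n) : ∑ i : Fin n, dl i i = 1 := by
  have h0 : (n : ℝ) ≠ 0 := by positivity
  unfold dl
  simp [h0]

/-- `|m|² = Z/Y² - 1/n` -/
lemma e1_sq (hn : 1 ≤ n) {A : Fin n → Fin n → EE N} (hY : 0 < YY A) :
    Helper35.PI.sq (mA A) = ZZ A / YY A ^ 2 - 1 / n := by
  have h0 : (n : ℝ) ≠ 0 := by positivity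
  have hY' := hY.ne'
  unfold Helper35.PI.sq mA
  have e1 : ∀ i j : Fin n, (zz A i j / YY A - dl i j) ^ 2 =
      zz A i j ^ 2 / YY A ^ 2 - (if i = j then 2 / (n : ℝ) * (zz A i j / YY A) - 1 / (n : ℝ) ^ 2 else 0) := by
    intro i j
    unfold dl
    by_cases h : i = j
    · rw [if_pos h, if_pos h]
      field_simp
      ring
    · rw [if_neg h, if_neg h]
      field_simp
      ring
  simp_rw [e1, Finset.sum_sub_distrib, Finset.sum_ite_eq, Finset.mem_univ, if_true]
  rw [Finset.sum_sub_distrib, ← Finset.mul_sum, ← Finset.sum_div, e1_sum_zz, div_self hY']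
  have e2 : ∑ i, ∑ j, zz A i j ^ 2 / YY A ^ 2 = ZZ A / YY A ^ 2 := by
    unfold ZZ
    simp_rw [Finset.sum_div]
  rw [e2]
  simp only [Finset.sum_const, Finset.card_univ, Fintype.card_fin, nsmul_eq_mul]
  field_simp
  ring

/-- `|B_ij|² Y = |A_ij|² - z_ij²/Y` -/
lemma e1_B {A : Fin n → Fin n → EE N} (hY : 0 < YY A) (i j : Fin n) :
    ‖BA A i j‖ ^ 2 = ‖A i j‖ ^ 2 / YY A - zz A i j ^ 2 / YY A ^ 2 := by
  have hY' := hY.ne'
  have hH : ‖Hv A‖ ^ 2 = YY A := rfl
  have h1 : ‖BA A i j‖ ^ 2 = (1 / YY A) * ‖A i j - (zz A i j / YY A) • Hv A‖ ^ 2 := by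
    unfold BA
    rw [norm_smul, mul_pow, Real.norm_eq_abs, sq_abs, one_div, inv_pow, hH, one_div]
  have h2 : ‖A i j - (zz A i j / YY A) • Hv A‖ ^ 2 = ‖A i j‖ ^ 2 - zz A i j ^ 2 / YY A := by
    rw [norm_sub_sq_real, inner_smul_right, norm_smul, mul_pow, hH, Real.norm_eq_abs, sq_abs]
    have h3 : inner ℝ (A i j) (Hv A) = zz A i j := rfl
    rw [h3]
    field_simp
    ring
  rw [h1, h2]
  field_simp

lemma e1_rq {A : Fin n → Fin n → EE N} (hY : 0 < YY A) :
    rq (BA A) = XX A / YY A - ZZ A / YY A ^ 2 := by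
  unfold rq XX ZZ
  simp_rw [e1_B hY, Finset.sum_sub_distrib, Finset.sum_div]

theorem hE1 : StE1 := by
  intro n N hn A T hA hT hY
  have hY' := hY.ne'
  have h0 : (n : ℝ) ≠ 0 := by positivity
  refine ⟨?_, ?_, ?_, ?_, ?_, ?_, ?_, ?_, ?_⟩
  · intro i j
    unfold mA
    rw [e1_zz_symm hA, e1_dl_symm]
  · unfold TrS mA
    rw [Finset.sum_sub_distrib, ← Finset.sum_div, e1_sum_zz, div_self hY', e1_sum_dl hn, sub_self]
  · intro i j
    unfold BA
    rw [e1_zz_symm hA, hA i j]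
  · unfold TrV BA
    rw [← Finset.smul_sum, Finset.sum_sub_distrib, ← Finset.sum_smul, ← Finset.sum_div, e1_sum_zz,
      div_self hY', one_smul]
    have : ∑ i, A i i = Hv A := rfl
    rw [this, sub_self, smul_zero]
  · refine ⟨fun i j k => ?_, fun i j k => ?_⟩
    · unfold tA
      rw [hT.1 i j k]
    · unfold tA
      rw [hT.2 i j k]
  · refine ⟨fun i j k => ?_, fun i j k => ?_⟩
    · unfold thA
      rw [hT.1 i j k]
    · unfold thA
      rw [hT.2 i j k]
  · rw [e1_sq hn hY, e1_rq hY]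
    field_simp
    ring
  · rw [e1_sq hn hY]
    field_simp
    ring
  · intro k
    unfold gY yv tA et
    rw [← Finset.sum_div, inner_sum]
    have e : ∀ i, (inner ℝ (Hv A) (T i i k) : ℝ) = inner ℝ (T k i i) (Hv A) := by
      intro i
      rw [real_inner_comm, hT.2 i i k, hT.1 i k i]
    simp_rw [e]
    field_simp

end Helper79.PI
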