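import Mathlib
import Pool.Agent.Helper35.PI.St2

/-! Module MX of project PI: the localised maximum principle at a point. -/

namespace Helper79.PI

open Helper35.PI
open scoped ContDiff Manifold Topology ENNReal BigOperators
open MeasureTheory Set Filter

/-- jets of the affine time function -/
theorem time_jets (n : ℕ) (a T₀ : ℝ) (z : EE n × ℝ) :
    ContDiffAt ℝ 2 (fun z : EE n × ℝ => a * (z.2 - T₀)) z ∧
    (∀ k, jg (fun z : EE n × ℝ => a * (z.2 - T₀)) z k = 0) ∧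
    jh (fun z : EE n × ℝ => a * (z.2 - T₀)) z = a := by
  have hd : ∀ z : EE n × ℝ, HasFDerivAt (fun z : EE n × ℝ => a * (z.2 - T₀))
      (a • ContinuousLinearMap.snd ℝ (EE n) ℝ) z := by
    intro z
    exact ((hasFDerivAt_snd (𝕜 := ℝ) (p := z)).sub_const T₀).const_mul a
  have hg : ∀ (z : EE n × ℝ) (k : Fin n), jg (fun z : EE n × ℝ => a * (z.2 - T₀)) z k = 0 := by
    intro z k
    unfold jg
    rw [(hd z).fderiv]
    simp
  refine ⟨?_, hg z, ?_⟩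
  · exact (contDiffAt_const.mul (contDiffAt_snd.sub contDiffAt_const))
  · unfold jh
    have h1 : jt (fun z : EE n × ℝ => a * (z.2 - T₀)) z = a := by
      unfold jt
      rw [(hd z).fderiv]
      simp
    have h2 : ∀ k : Fin n, jgg (fun z : EE n × ℝ => a * (z.2 - T₀)) z k k = 0 := by
      intro k
      unfold jgg
      have h3 : (fun z' : EE n × ℝ => jg (fun z : EE n × ℝ => a * (z.2 - T₀)) z' k)
          = fun _ => (0 : ℝ) := by
        funext z'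
        exact hg z' k
      rw [h3]
      unfold jg
      simp
    rw [h1]
    simp [h2]

/-- Bessel for the images of the coordinate vectors -/
theorem bessel (n N : ℕ) (L : EE n →ₗᵢ[ℝ] EE N) (x : EE N) :
    ∑ k : Fin n, (inner ℝ x (L (ee k)) : ℝ) ^ 2 ≤ ‖x‖ ^ 2 := by
  have hon : Orthonormal ℝ (fun k : Fin n => L (ee k)) := by
    have h1 : Orthonormal ℝ (fun k : Fin n => (ee k : EE n)) := by
      have := (EuclideanSpace.basisFun (Fin n) ℝ).orthonormal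
      have h2 : (fun k : Fin n => (ee k : EE n)) = ⇑(EuclideanSpace.basisFun (Fin n) ℝ) := by
        funext k
        simp [ee]
      rw [h2]
      exact this
    exact h1.comp_linearIsometry L
  have h := hon.sum_inner_products_le (s := Finset.univ) x
  refine le_trans (le_of_eq ?_) h
  refine Finset.sum_congr rfl fun k _ => ?_
  rw [real_inner_comm, Real.norm_eq_abs, sq_abs]

/-- MX -/
theorem hMX (hJA : StJA) (_hJB : StJB) (hMP : StMP) (hG1 : StG1) (hG7 : StG7) (hG8 : StG8)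
    (hG9 : StG9) (hG10 : StG10) (hC4 : StC4) (_hI4 : StI4) (hMX1 : StMX1) (hE1 : StE1)
    (hE2 : StE2) (hE3 : StE3) (hE4 : StE4) (hE5 : StE5) (_hPO : StPO) : StMX := by
  intro n N hn κ κ₁ k hκ hK M _ _ _ F hF p₀ t₀ T₀ R ht₀ hT₀ hR hH0 hr0 hsr hW0 hmax
  obtain ⟨L, u, θ, hG, hθ0, hθc, _hrange, hev⟩ := hC4 n N M F hF p₀ t₀ ht₀
  obtain ⟨hA1, hA2, _hA3, _hA4⟩ := hG1 n N (F p₀ t₀) L u t₀ hG
  obtain ⟨hX1, hX2, hX3, hX4⟩ := hG7 n N (F p₀ t₀) L u t₀ hG _ _ rfl rfl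
  obtain ⟨hY1, hY2, hY3, hY4⟩ := hG8 n N (F p₀ t₀) L u t₀ hG _ _ rfl rfl
  obtain ⟨hZ1, hZ2, hZ3, hZ4⟩ := hG9 n N (F p₀ t₀) L u t₀ hG _ _ rfl rfl
  obtain ⟨_, hD⟩ := hG10 n N (F p₀ t₀) L u t₀ hG
  obtain ⟨hD1, hD2, hD3⟩ := hD (fun _ => 0) 0 contDiffAt_const (hasDerivAt_const _ _)
  generalize hAdef : jgg u (0, t₀) = A at *
  generalize hTdef : jggg u (0, t₀) = T at *
  -- values at the base point
  have hev0 := hev.self_of_nhds
  simp only [hθ0] at hev0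
  obtain ⟨hF0, hHm, hAm, hZm⟩ := hev0
  have hYv : Yf (F p₀ t₀) L u (0, t₀) = ‖HH (n := n) F p₀ t₀‖ ^ 2 := by
    unfold Yf
    rw [hHm]
  have hXv : Xf (F p₀ t₀) L u (0, t₀) = AA (n := n) F p₀ t₀ := by
    unfold Xf
    rw [hAm]
  have hZv : Zf (F p₀ t₀) L u (0, t₀) = ZF (n := n) F p₀ t₀ := by
    unfold Zf
    rw [hZm]
  have hYpos : 0 < YY A := by
    rw [← hY2, hYv]
    positivity
  have hn1 : 1 ≤ n := le_trans (by norm_num) hn
  obtain ⟨e1, e2, e3, e4, e5, e6, e7, e8, e9⟩ := hE1 n N hn1 A T hA1 hA2 hYpos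
  have hE2' := hE2 n N hn1 A T hA1 hA2 hYpos
  have hE3' := hE3 n N hn1 A T hA1 hA2 hYpos
  have hE4' := hE4 n N hn1 A T hA1 hA2 hYpos
  have hE5' := hE5 n N hn1 A T hA1 hA2 hYpos
  have hY0 : YY A ≠ 0 := hYpos.ne'
  have hsval : ZZ A / YY A ^ 2 - 1 / n = Helper35.PI.sq (mA A) := by
    rw [e8]
    field_simp
    ring
  have hrval : XX A / YY A - ZZ A / YY A ^ 2 = rq (BA A) := by
    rw [e7, e8]
    field_simp
    ring
  have hrF : rF n F p₀ t₀ = rq (BA A) := by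
    unfold rF
    rw [← hYv, ← hXv, ← hZv, hY2, hX2, hZ2, hrval]
  have hsF : sF n F p₀ t₀ = Helper35.PI.sq (mA A) := by
    unfold sF
    rw [← hYv, ← hZv, hY2, hZ2, hsval]
  rw [hrF] at hr0 hsr
  rw [hsF] at hsr
  -- the function W
  set W : EE n × ℝ → ℝ := fun z =>
    R ^ 2 - ‖grf (F p₀ t₀) L u z.2 z.1‖ ^ 2 - 2 * n * (z.2 - T₀) with hWdef
  obtain ⟨ht1, ht2, ht3⟩ := time_jets n (2 * n) T₀ (0, t₀)
  have hD1' : ContDiffAt ℝ 2 (fun z : EE n × ℝ => ‖grf (F p₀ t₀) L u z.2 z.1‖ ^ 2) (0, t₀) := by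
    simpa using hD1
  have hD2' : ∀ j, jg (fun z : EE n × ℝ => ‖grf (F p₀ t₀) L u z.2 z.1‖ ^ 2) (0, t₀) j
      = 2 * inner ℝ (F p₀ t₀) (L (ee j)) := by
    simpa using hD2
  have hD3' : jh (fun z : EE n × ℝ => ‖grf (F p₀ t₀) L u z.2 z.1‖ ^ 2) (0, t₀) = -2 * n := by
    simpa using hD3
  obtain ⟨_, hJc, hJadd, _, _⟩ := hJA n ℝ (0, t₀)
  have hc0 := hJc (R ^ 2)
  have hcd0 : ContDiffAt ℝ 2 (fun _ : EE n × ℝ => R ^ 2) (0, t₀) := contDiffAt_const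
  obtain ⟨_, _, hs1, hs2⟩ := hJadd (fun _ : EE n × ℝ => R ^ 2)
    (fun z : EE n × ℝ => ‖grf (F p₀ t₀) L u z.2 z.1‖ ^ 2) hcd0 hD1'
  have hcd1 : ContDiffAt ℝ 2 (fun z : EE n × ℝ =>
      R ^ 2 - ‖grf (F p₀ t₀) L u z.2 z.1‖ ^ 2) (0, t₀) := hcd0.sub hD1'
  obtain ⟨_, _, hs3, hs4⟩ := hJadd (fun z : EE n × ℝ =>
      R ^ 2 - ‖grf (F p₀ t₀) L u z.2 z.1‖ ^ 2)
    (fun z : EE n × ℝ => 2 * (n : ℝ) * (z.2 - T₀)) hcd1 ht1
  have hWc : ContDiffAt ℝ 2 W (0, t₀) := hcd1.sub ht1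
  have hWg : ∀ j, jg W (0, t₀) j = -(2 * inner ℝ (F p₀ t₀) (L (ee j))) := by
    intro j
    have h1 := hs3 j
    rw [hs1 j, hc0.1 j, hD2' j, ht2 j] at h1
    rw [hWdef, h1]
    ring
  have hWh : jh W (0, t₀) = 0 := by
    have h1 := hs4
    rw [hs2, hc0.2, hD3', ht3] at h1
    rw [hWdef, h1]
    ring
  have hWv : W (0, t₀) = R ^ 2 - ‖F p₀ t₀‖ ^ 2 - 2 * n * (t₀ - T₀) := by
    simp only [hWdef]
    rw [← hF0]
  have hWpos : 0 < W (0, t₀) := by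
    rw [hWv]
    exact hW0
  -- the jets of the test function
  have hκsr : 0 < κ - Helper35.PI.sq (mA A) - rq (BA A) := by linarith
  obtain ⟨hL1, hL2, hL3⟩ := hMX1 n (0, t₀) (Xf (F p₀ t₀) L u) (Yf (F p₀ t₀) L u)
    (Zf (F p₀ t₀) L u) W κ T₀ k (hX1.of_le (by norm_num)) (hY1.of_le (by norm_num))
    (hZ1.of_le (by norm_num)) hWc (by rw [hY2]; exact hYpos) hWpos hT₀
    (Helper35.PI.sq (mA A)) (rq (BA A)) (hsv (YY A) (mA A) (BA A) (tA A T) (thA A T))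
    (hrv (YY A) (mA A) (BA A) (tA A T) (thA A T))
    (fun j => 2 * gsv (mA A) (BA A) (tA A T) (thA A T) j)
    (fun j => 2 * grv (mA A) (BA A) (tA A T) (thA A T) j)
    (by rw [hY2, hZ2, hsval]) (by rw [hY2, hZ2, hX2, hrval]) hr0 hκsr
    (by
      intro j
      rw [hY2, hZ2, hZ3 j, hY3 j]
      exact (hE2' j).1.symm)
    (by
      intro j
      rw [hY2, hX2, hX3 j, hY3 j]
      have h1 := (hE2' j).1
      have h2 := (hE2' j).2
      rw [h1] at h2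
      exact h2.symm)
    (by
      simp only [hY2, hZ2, hZ3, hY3, hZ4, hY4]
      exact hE4'.symm)
    (by
      simp only [hY2, hX2, hX3, hY3, hX4, hY4]
      exact hE5'.symm)
    _ rfl
  -- local maximum
  have hmaxf : ∀ᶠ z in 𝓝 ((0 : EE n), t₀), z.2 ≤ t₀ →
      (fun z' : EE n × ℝ => 2 * Real.log (W z') + Real.log (z'.2 - T₀)
      + k * (Real.log (Xf (F p₀ t₀) L u z' / Yf (F p₀ t₀) L u z'
          - Zf (F p₀ t₀) L u z' / Yf (F p₀ t₀) L u z' ^ 2)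
        - Real.log (κ - (Zf (F p₀ t₀) L u z' / Yf (F p₀ t₀) L u z' ^ 2 - 1 / n)
          - (Xf (F p₀ t₀) L u z' / Yf (F p₀ t₀) L u z'
            - Zf (F p₀ t₀) L u z' / Yf (F p₀ t₀) L u z' ^ 2)))
      + Real.log (Yf (F p₀ t₀) L u z')) z ≤
      (fun z' : EE n × ℝ => 2 * Real.log (W z') + Real.log (z'.2 - T₀)
      + k * (Real.log (Xf (F p₀ t₀) L u z' / Yf (F p₀ t₀) L u z'
          - Zf (F p₀ t₀) L u z' / Yf (F p₀ t₀) L u z' ^ 2)
        - Real.log (κ - (Zf (F p₀ t₀) L u z' / Yf (F p₀ t₀) L u z' ^ 2 - 1 / n)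
          - (Xf (F p₀ t₀) L u z' / Yf (F p₀ t₀) L u z'
            - Zf (F p₀ t₀) L u z' / Yf (F p₀ t₀) L u z' ^ 2)))
      + Real.log (Yf (F p₀ t₀) L u z')) (0, t₀) := by
    have htend : Tendsto (fun z : EE n × ℝ => (θ z, z.2)) (𝓝 ((0 : EE n), t₀))
        (𝓝 (p₀, t₀)) := by
      have h1 : Tendsto θ (𝓝 ((0 : EE n), t₀)) (𝓝 p₀) := by
        have := hθc.tendsto
        rwa [hθ0] at this
      have h2 : Tendsto (fun z : EE n × ℝ => z.2) (𝓝 ((0 : EE n), t₀)) (𝓝 t₀) :=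
        continuous_snd.tendsto _
      exact h1.prodMk_nhds h2
    have hm := htend.eventually hmax
    have hkey : ∀ z : EE n × ℝ, (F (θ z) z.2 = grf (F p₀ t₀) L u z.2 z.1 ∧
        HH (n := n) F (θ z) z.2 = mcv (grf (F p₀ t₀) L u z.2) z.1 ∧
        AA (n := n) F (θ z) z.2 = nsq (grf (F p₀ t₀) L u z.2) z.1 ∧
        ZF (n := n) F (θ z) z.2 = zsq (grf (F p₀ t₀) L u z.2) z.1) →
        Lfun n F κ k R T₀ (θ z) z.2 = 2 * Real.log (W z) + Real.log (z.2 - T₀)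
      + k * (Real.log (Xf (F p₀ t₀) L u z / Yf (F p₀ t₀) L u z
          - Zf (F p₀ t₀) L u z / Yf (F p₀ t₀) L u z ^ 2)
        - Real.log (κ - (Zf (F p₀ t₀) L u z / Yf (F p₀ t₀) L u z ^ 2 - 1 / n)
          - (Xf (F p₀ t₀) L u z / Yf (F p₀ t₀) L u z
            - Zf (F p₀ t₀) L u z / Yf (F p₀ t₀) L u z ^ 2)))
      + Real.log (Yf (F p₀ t₀) L u z) := by
      rintro z ⟨a1, a2, a3, a4⟩
      simp only [Lfun, rF, sF, hWdef, Xf, Yf, Zf]
      rw [a1, a2, a3, a4]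
    have hk0 := hkey (0, t₀) hev.self_of_nhds
    rw [hθ0] at hk0
    filter_upwards [hm, hev] with z hz1 hz2 hz3
    have hz4 := hz1 hz3
    simp only at hz4 hk0
    rw [hkey z hz2, hk0] at hz4
    exact hz4
  obtain ⟨hg0, hh0⟩ := hMP n 0 t₀ _ hL1 hmaxf
  -- gradient condition
  have hgrad : ∀ j, (k : ℝ) * (2 * grv (mA A) (BA A) (tA A T) (thA A T) j / rq (BA A)
          + 2 * (gsv (mA A) (BA A) (tA A T) (thA A T) j
            + grv (mA A) (BA A) (tA A T) (thA A T) j) / (κ - Helper35.PI.sq (mA A) - rq (BA A)))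
          + 2 * yv (tA A T) j + 2 * jg W (0, t₀) j / W (0, t₀) = 0 := by
    intro j
    have h1 := hg0 j
    rw [hL2 j, hY3 j, hY2, e9 j] at h1
    have h2 : YY A * (2 * yv (tA A T) j) / YY A = 2 * yv (tA A T) j := by
      field_simp
    rw [h2] at h1
    linear_combination h1
  have hKk := hK (YY A) (mA A) (BA A) (tA A T) (thA A T)
    (fun j => 2 * jg W (0, t₀) j / W (0, t₀)) hYpos e1 e2 e3 e4 e5 e6 hr0 hsr hgrad
  rw [hL3] at hh0
  have hlast : jh (Yf (F p₀ t₀) L u) (0, t₀) / Yf (F p₀ t₀) L u (0, t₀)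
      + (∑ j, jg (Yf (F p₀ t₀) L u) (0, t₀) j ^ 2) / Yf (F p₀ t₀) L u (0, t₀) ^ 2
      = hlY (YY A) (mA A) (tA A T) (thA A T) := by
    simp only [hY2, hY3, hY4]
    exact hE3'
  rw [hlast, hWh] at hh0
  have hmid : (∑ j, (2 * gsv (mA A) (BA A) (tA A T) (thA A T) j
      + 2 * grv (mA A) (BA A) (tA A T) (thA A T) j) ^ 2)
      = ∑ j, (2 * (gsv (mA A) (BA A) (tA A T) (thA A T) j
        + grv (mA A) (BA A) (tA A T) (thA A T) j)) ^ 2 := by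
    refine Finset.sum_congr rfl fun j _ => ?_
    ring
  rw [hmid] at hh0
  -- sum of squares
  have hsum : ∑ j, (2 * jg W (0, t₀) j / W (0, t₀)) ^ 2
      = 4 * (∑ j, jg W (0, t₀) j ^ 2) / W (0, t₀) ^ 2 := by
    rw [Finset.mul_sum, Finset.sum_div]
    refine Finset.sum_congr rfl fun j _ => ?_
    ring_nf
  simp only [hsum] at hKk
  have hSle : ∑ j, jg W (0, t₀) j ^ 2 ≤ 4 * R ^ 2 := by
    have h1 : ∑ j, jg W (0, t₀) j ^ 2
        = 4 * ∑ j, (inner ℝ (F p₀ t₀) (L (ee j)) : ℝ) ^ 2 := by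
      rw [Finset.mul_sum]
      refine Finset.sum_congr rfl fun j _ => ?_
      rw [hWg j]
      ring
    have h2 := bessel n N L (F p₀ t₀)
    have h3 : ‖F p₀ t₀‖ ^ 2 ≤ R ^ 2 := by
      have h4 : 0 ≤ 2 * (n : ℝ) * (t₀ - T₀) := by
        have : 0 ≤ t₀ - T₀ := by linarith
        positivity
      linarith
    rw [h1]
    linarith
  have hYeq : ‖HH (n := n) F p₀ t₀‖ ^ 2 = YY A := by
    rw [← hYv, hY2]
  rw [hYeq, ← hWv]
  have hS56 : 14 * (∑ j, jg W (0, t₀) j ^ 2) / W (0, t₀) ^ 2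
      ≤ 56 * R ^ 2 / W (0, t₀) ^ 2 := by
    apply div_le_div_of_nonneg_right _ (by positivity)
    linarith
  have hsplit : 14 * (∑ j, jg W (0, t₀) j ^ 2) / W (0, t₀) ^ 2
      = 2 * (0 / W (0, t₀) + (∑ j, jg W (0, t₀) j ^ 2) / W (0, t₀) ^ 2)
        + 3 * (4 * (∑ j, jg W (0, t₀) j ^ 2) / W (0, t₀) ^ 2) := by
    ring
  simp only at hh0 hKk
  linarith

end Helper79.PI
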