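import Mathlib
import Pool.Agent.Helper35.PI.St4

/-! Module V7 of project PI: area versus Hausdorff measure, local comparison. -/

namespace Helper79.PI

open Helper35.PI
open scoped ContDiff Manifold Topology ENNReal NNReal BigOperators
open MeasureTheory Set Filter

theorem haarE (n : ℕ) : (μH[(n : ℝ)] : Measure (EE n)).IsAddHaarMeasure := by
  have h := MeasureTheory.isAddHaarMeasure_hausdorffMeasure (E := EE n)
  rwa [finrank_euclideanSpace_fin] at h

theorem det_gram_eq (n N : ℕ) (L₀ : EE n →L[ℝ] EE N) (L : EE n →ₗᵢ[ℝ] EE N)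
    (S : EE n →ₗ[ℝ] EE n) (hS : ∀ v, L (S v) = L₀ v) :
    (Matrix.of fun i j : Fin n => (inner ℝ (L₀ (ee i)) (L₀ (ee j)) : ℝ)).det
      = (LinearMap.det S) ^ 2 := by
  have h1 : (Matrix.of fun i j : Fin n => (inner ℝ (L₀ (ee i)) (L₀ (ee j)) : ℝ))
      = (LinearMap.toMatrix (EuclideanSpace.basisFun (Fin n) ℝ).toBasis
          (EuclideanSpace.basisFun (Fin n) ℝ).toBasis S).transpose *
        (LinearMap.toMatrix (EuclideanSpace.basisFun (Fin n) ℝ).toBasis
          (EuclideanSpace.basisFun (Fin n) ℝ).toBasis S) := by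
    ext i j
    rw [Matrix.of_apply, Matrix.mul_apply, ← hS, ← hS, L.inner_map_map, PiLp.inner_apply]
    refine Finset.sum_congr rfl fun k _ => ?_
    rw [Matrix.transpose_apply, LinearMap.toMatrix_apply, LinearMap.toMatrix_apply]
    simp [ee, mul_comm]
  rw [h1, Matrix.det_mul, Matrix.det_transpose, LinearMap.det_toMatrix, pow_two]

theorem sum_ee (n : ℕ) (v : EE n) : v = ∑ i, v i • (ee i : EE n) := by
  ext k
  simp [ee, Pi.single_apply]

theorem sgm_cont (n N : ℕ) (f : EE n → EE N) (y₀ : EE n) (hf : ContDiffAt ℝ 1 f y₀) :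
    ContinuousAt (fun y => sgm f y) y₀ := by
  have h1 : ContinuousAt (fderiv ℝ f) y₀ := by
    have := hf.fderiv_right (m := 0) (by norm_num)
    exact this.continuousAt
  have h2 : ∀ i, ContinuousAt (fun y => dv1 f y i) y₀ := by
    intro i
    unfold dv1
    exact h1.clm_apply continuousAt_const
  have h3 : ContinuousAt (fun y => gram f y) y₀ := by
    unfold gram
    refine continuousAt_pi.2 fun i => continuousAt_pi.2 fun j => ?_
    exact (h2 i).inner (h2 j)
  unfold sgm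
  have h4 : ContinuousAt (fun y => (gram f y).det) y₀ :=
    (Continuous.matrix_det continuous_id).continuousAt.comp h3
  exact h4.sqrt

/-- V7 -/
theorem hV7 (hC1 : StC1) : StV7 := by
  intro n
  have hhaar : (μH[(n : ℝ)] : Measure (EE n)).IsAddHaarMeasure := haarE n
  obtain ⟨c, hc⟩ : ∃ c : ℝ≥0, (volume : Measure (EE n)) = c • (μH[(n : ℝ)] : Measure (EE n)) :=
    ⟨_, Measure.isAddLeftInvariant_eq_smul _ _⟩
  refine ⟨2 * (c : ℝ≥0∞) * 2 ^ n, ?_, ?_⟩
  · exact ENNReal.mul_ne_top (ENNReal.mul_ne_top (by norm_num) ENNReal.coe_ne_top)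
      (ENNReal.pow_ne_top (by norm_num))
  intro N f y₀ hf hLI
  obtain ⟨L, hL⟩ := hC1 n N (fun i => dv1 f y₀ i) hLI
  generalize hL₀ : fderiv ℝ f y₀ = L₀
  have hdv : ∀ i, dv1 f y₀ i = L₀ (ee i) := by
    intro i
    rw [← hL₀]
    rfl
  have hinj : ∀ v, L₀ v = 0 → v = 0 := by
    intro v hv
    have h3 : ∑ i, v i • dv1 f y₀ i = 0 := by
      rw [← hv]
      conv_rhs => rw [sum_ee n v]
      rw [map_sum]
      refine Finset.sum_congr rfl fun i _ => ?_
      rw [hdv, map_smul]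
    have h4 := Fintype.linearIndependent_iff.mp hLI (fun i => v i) h3
    rw [sum_ee n v]
    simp [h4]
  have hrange : ∀ v, ∃ w, L w = L₀ v := by
    intro v
    have h1 : L₀ v ∈ LinearMap.range L.toLinearMap := by
      rw [hL]
      rw [sum_ee n v, map_sum]
      refine Submodule.sum_mem _ fun i _ => ?_
      rw [map_smul, ← hdv]
      exact Submodule.smul_mem _ _ (Submodule.subset_span ⟨i, rfl⟩)
    obtain ⟨w, hw⟩ := h1
    exact ⟨w, hw⟩
  let S : EE n →L[ℝ] EE n :=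
    (ContinuousLinearMap.adjoint L.toContinuousLinearMap) ∘L L₀
  have hLL : ∀ w, (ContinuousLinearMap.adjoint L.toContinuousLinearMap) (L w) = w := by
    intro w
    refine ext_inner_right ℝ fun u => ?_
    rw [ContinuousLinearMap.adjoint_inner_left]
    exact L.inner_map_map w u
  have hS : ∀ v, L (S v) = L₀ v := by
    intro v
    obtain ⟨w, hw⟩ := hrange v
    have : S v = w := by
      change (ContinuousLinearMap.adjoint L.toContinuousLinearMap) (L₀ v) = w
      rw [← hw, hLL]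
    rw [this, hw]
  have hnS : ∀ v, ‖S v‖ = ‖L₀ v‖ := by
    intro v
    rw [← hS v, L.norm_map]
  have hdet : (gram f y₀).det = (LinearMap.det (S : EE n →ₗ[ℝ] EE n)) ^ 2 := by
    rw [← det_gram_eq n N L₀ L (S : EE n →ₗ[ℝ] EE n) hS]
    congr 1
    ext i j
    simp only [gram, Matrix.of_apply, hdv]
  have hsg : sgm f y₀ = |LinearMap.det (S : EE n →ₗ[ℝ] EE n)| := by
    unfold sgm
    rw [hdet, Real.sqrt_sq_eq_abs]
  have hSinj : Function.Injective S := by
    rw [injective_iff_map_eq_zero]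
    intro v hv
    apply hinj
    rw [← hS, hv, map_zero]
  have hdet0 : LinearMap.det (S : EE n →ₗ[ℝ] EE n) ≠ 0 := by
    have h1 : Function.Injective (S : EE n →ₗ[ℝ] EE n) := hSinj
    have h2 := LinearMap.isUnit_iff_ker_eq_bot (S : EE n →ₗ[ℝ] EE n) |>.2
      (LinearMap.ker_eq_bot.2 h1)
    exact (LinearMap.isUnit_det _ h2).ne_zero
  have hsg0 : 0 < sgm f y₀ := by
    rw [hsg]
    exact abs_pos.2 hdet0
  -- antilipschitz
  have hker : LinearMap.ker (L₀ : EE n →ₗ[ℝ] EE N) = ⊥ := by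
    rw [LinearMap.ker_eq_bot']
    exact hinj
  obtain ⟨K, hK0, hK⟩ := (L₀ : EE n →ₗ[ℝ] EE N).exists_antilipschitzWith hker
  have hKn : ∀ v, ‖v‖ ≤ K * ‖L₀ v‖ := by
    intro v
    have := hK.le_mul_dist v 0
    simpa using this
  have hKpos : (0 : ℝ) < K := hK0
  have hstrict : HasStrictFDerivAt f L₀ y₀ := by
    rw [← hL₀]
    exact hf.hasStrictFDerivAt (by norm_num)
  have hlittle := hstrict.isLittleO.def (c := 1 / (2 * K)) (by positivity)
  have hkey : ∀ᶠ p : EE n × EE n in 𝓝 (y₀, y₀), ‖L₀ (p.1 - p.2)‖ ≤ 2 * ‖f p.1 - f p.2‖ := by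
    filter_upwards [hlittle] with p hp
    have h1 : ‖f p.1 - f p.2 - L₀ (p.1 - p.2)‖ ≤ 1 / 2 * ‖L₀ (p.1 - p.2)‖ := by
      refine hp.trans ?_
      have h2 := hKn (p.1 - p.2)
      calc 1 / (2 * (K : ℝ)) * ‖p.1 - p.2‖ ≤ 1 / (2 * K) * (K * ‖L₀ (p.1 - p.2)‖) := by
            gcongr
        _ = 1 / 2 * ‖L₀ (p.1 - p.2)‖ := by
            field_simp
    have h3 : ‖L₀ (p.1 - p.2)‖ ≤ ‖f p.1 - f p.2‖ + ‖f p.1 - f p.2 - L₀ (p.1 - p.2)‖ := by
      have h4 : L₀ (p.1 - p.2) = (f p.1 - f p.2) - (f p.1 - f p.2 - L₀ (p.1 - p.2)) := by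
        abel
      calc ‖L₀ (p.1 - p.2)‖ = ‖(f p.1 - f p.2) - (f p.1 - f p.2 - L₀ (p.1 - p.2))‖ := by
            rw [← h4]
        _ ≤ _ := norm_sub_le _ _
    linarith
  have hsgm : ∀ᶠ y in 𝓝 y₀, sgm f y ≤ 2 * sgm f y₀ := by
    have h1 := (sgm_cont n N f y₀ hf).tendsto
    have h2 : sgm f y₀ < 2 * sgm f y₀ := by linarith
    filter_upwards [h1.eventually (gt_mem_nhds h2)] with y hy
    exact hy.le
  have hcont : ∀ᶠ y in 𝓝 y₀, ContinuousAt f y := by
    filter_upwards [hf.eventually (by norm_num)] with y hy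
    exact hy.continuousAt
  rw [nhds_prod_eq] at hkey
  obtain ⟨u, hu, hkey2⟩ := (Filter.eventually_prod_self_iff
    (r := fun a b : EE n => ‖L₀ (a - b)‖ ≤ 2 * ‖f a - f b‖)).1 hkey
  obtain ⟨δ, hδ, hball⟩ := Metric.eventually_nhds_iff_ball.1
    ((Filter.eventually_mem_set.2 hu).and (hsgm.and hcont))
  have hbi : ∀ x ∈ Metric.ball y₀ δ, ∀ y ∈ Metric.ball y₀ δ,
      ‖L₀ (x - y)‖ ≤ 2 * ‖f x - f y‖ := fun x hx y hy =>
    hkey2 x (hball x hx).1 y (hball y hy).1
  have hInj : InjOn f (Metric.ball y₀ δ) := by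
    intro x hx y hy hxy
    have h1 := hbi x hx y hy
    rw [hxy, sub_self, norm_zero, mul_zero] at h1
    have h2 : L₀ (x - y) = 0 := norm_le_zero_iff.1 h1
    exact sub_eq_zero.1 (hinj _ h2)
  refine ⟨δ, hδ, hInj, fun y hy => (hball y hy).2.2.continuousWithinAt, ?_⟩
  intro E hE hEm
  have h1 : ∫⁻ y in E, ENNReal.ofReal (sgm f y)
      ≤ ENNReal.ofReal (2 * sgm f y₀) * volume E := by
    have h2 : ∫⁻ y in E, ENNReal.ofReal (sgm f y) ≤ ∫⁻ _ in E, ENNReal.ofReal (2 * sgm f y₀) := by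
      refine setLIntegral_mono' hEm fun y hy => ?_
      exact ENNReal.ofReal_le_ofReal (hball y (hE hy)).2.1
    rwa [setLIntegral_const] at h2
  have h3 : (volume : Measure (EE n)) E = c * μH[(n : ℝ)] E := by
    rw [hc]
    simp
  have h4 : ENNReal.ofReal (sgm f y₀) * μH[(n : ℝ)] E = μH[(n : ℝ)] (S '' E) := by
    have h5 := Measure.addHaar_image_linearMap (μH[(n : ℝ)] : Measure (EE n))
      (S : EE n →ₗ[ℝ] EE n) E
    rw [hsg]
    exact h5.symm
  -- the Lipschitz map from `f '' E` onto `S '' E`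
  have h6 : μH[(n : ℝ)] (S '' E) ≤ 2 ^ n * μH[(n : ℝ)] (f '' E) := by
    let g : EE N → EE n := fun z => S (Function.invFunOn f (Metric.ball y₀ δ) z)
    have hg : ∀ y ∈ Metric.ball y₀ δ, g (f y) = S y := by
      intro y hy
      have : Function.invFunOn f (Metric.ball y₀ δ) (f y) = y := hInj.leftInvOn_invFunOn hy
      simp only [g, this]
    have hgL : LipschitzOnWith 2 g (f '' E) := by
      rw [lipschitzOnWith_iff_dist_le_mul]
      rintro _ ⟨x, hx, rfl⟩ _ ⟨y, hy, rfl⟩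
      rw [hg x (hE hx), hg y (hE hy), dist_eq_norm, dist_eq_norm, ← map_sub, hnS]
      exact hbi x (hE hx) y (hE hy)
    have h7 := hgL.hausdorffMeasure_image_le (d := (n : ℝ)) (Nat.cast_nonneg n)
    have h8 : g '' (f '' E) = S '' E := by
      rw [image_image]
      exact image_congr fun y hy => hg y (hE hy)
    rw [h8] at h7
    refine h7.trans (le_of_eq ?_)
    congr 1
    rw [ENNReal.rpow_natCast]
    rfl
  calc ∫⁻ y in E, ENNReal.ofReal (sgm f y)
      ≤ ENNReal.ofReal (2 * sgm f y₀) * volume E := h1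
    _ = 2 * c * (ENNReal.ofReal (sgm f y₀) * μH[(n : ℝ)] E) := by
        rw [h3, ENNReal.ofReal_mul (by norm_num)]
        have : ENNReal.ofReal 2 = 2 := by simp
        rw [this]
        ring
    _ = 2 * c * μH[(n : ℝ)] (S '' E) := by rw [h4]
    _ ≤ 2 * c * (2 ^ n * μH[(n : ℝ)] (f '' E)) := by gcongr
    _ = 2 * c * 2 ^ n * μH[(n : ℝ)] (f '' E) := by ring

end Helper79.PI
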